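import Mathlib
import Pool.Agent.H440R2.Final

/-!
The number of elements of the semigroup between two large prime powers.
-/

set_option autoImplicit false

namespace Pool.Agent.Y594.SUI

open Finset Pool.Agent.H440R2

lemma asymW (c1 K : ℝ) (hK : 0 < K) (j0 CW : ℕ) :
    ∃ N0 : ℕ, 2 ≤ N0 ∧ ∀ N ≥ N0,
      4 * C0 * (j0 + N) * Real.exp (-(0.3 * N)) ≤ Real.exp (-(c1 * (N:ℝ) ^ (9 / 10 : ℝ))) ∧
      8 * (1 + Real.log (K * N ^ 6)) ≤ (N:ℝ) ^ (1 / 20 : ℝ) ∧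
      4 * C0 * (j0 + N) * Real.exp (-(0.3 * N)) * (2 * CW ^ 24 * (N + 2) ^ 72) ≤ 1 := by
  have e1 : ∀ᶠ N : ℕ in Filter.atTop, 10 * c1 ≤ (N:ℝ) ^ (1 / 10 : ℝ) := ev_rpow _ (by norm_num)
  have e2 : ∀ᶠ N : ℕ in Filter.atTop, (4 * C0 * (j0 + 1)) * (N:ℝ) ^ 1 ≤ (Real.exp 0.1) ^ N :=
    ev_poly 1 _ (by rw [← Real.exp_zero]; exact Real.exp_lt_exp.mpr (by norm_num))
  have e3 : ∀ᶠ N : ℕ in Filter.atTop, 16 * (1 + Real.log K) ≤ (N:ℝ) ^ (1 / 20 : ℝ) :=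
    ev_rpow _ (by norm_num)
  have e4 : ∀ᶠ N : ℕ in Filter.atTop, Real.log N ≤ (1 / 96) * (N:ℝ) ^ (1 / 20 : ℝ) :=
    ev_log (by norm_num) (by norm_num)
  have e5 : ∀ᶠ N : ℕ in Filter.atTop,
      (8 * C0 * (j0 + 1) * CW ^ 24 * 3 ^ 72) * (N:ℝ) ^ 73 ≤ (Real.exp 0.3) ^ N :=
    ev_poly 73 _ (by rw [← Real.exp_zero]; exact Real.exp_lt_exp.mpr (by norm_num))
  obtain ⟨N1, hN1⟩ := Filter.eventually_atTop.mp
    (e1.and (e2.and (e3.and (e4.and e5))))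
  refine ⟨max N1 2, le_max_right _ _, fun N hN => ?_⟩
  obtain ⟨f1, f2, f3, f4, f5⟩ := hN1 N ((le_max_left _ _).trans hN)
  have hN2 : 2 ≤ N := (le_max_right _ _).trans hN
  have hNr : (2:ℝ) ≤ N := by exact_mod_cast hN2
  have hN0 : (0:ℝ) < N := by linarith
  have hjN : (j0 + N : ℝ) ≤ (j0 + 1) * N := by
    have : (j0:ℝ) ≤ j0 * N := le_mul_of_one_le_right (by positivity) (by linarith)
    linarith
  refine ⟨?_, ?_, ?_⟩
  · have g1 : c1 * (N:ℝ) ^ (9 / 10 : ℝ) ≤ 0.1 * N := by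
      have : (N:ℝ) = (N:ℝ) ^ (9 / 10 : ℝ) * (N:ℝ) ^ (1 / 10 : ℝ) := by
        rw [← Real.rpow_add hN0]; norm_num
      have h9 : 0 ≤ (N:ℝ) ^ (9 / 10 : ℝ) := by positivity
      calc c1 * (N:ℝ) ^ (9 / 10 : ℝ) = 0.1 * ((N:ℝ) ^ (9 / 10 : ℝ) * (10 * c1)) := by ring
        _ ≤ 0.1 * ((N:ℝ) ^ (9 / 10 : ℝ) * (N:ℝ) ^ (1 / 10 : ℝ)) := by gcongr
        _ = 0.1 * N := by rw [← this]
    have g3 : 4 * C0 * (j0 + N : ℝ) ≤ Real.exp (0.1 * N) := by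
      calc 4 * C0 * (j0 + N : ℝ) ≤ 4 * C0 * ((j0 + 1) * N) := by gcongr
        _ = (4 * C0 * (j0 + 1)) * (N:ℝ) ^ 1 := by ring
        _ ≤ (Real.exp 0.1) ^ N := f2
        _ = Real.exp (0.1 * N) := by rw [← Real.exp_nat_mul]; ring_nf
    calc 4 * C0 * (j0 + N : ℝ) * Real.exp (-(0.3 * N))
        ≤ Real.exp (0.1 * N) * Real.exp (-(0.3 * N)) :=
          mul_le_mul_of_nonneg_right g3 (Real.exp_pos _).le
      _ = Real.exp (-(0.2 * N)) := by rw [← Real.exp_add]; ring_nf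
      _ ≤ _ := by
          apply Real.exp_le_exp.mpr
          linarith
  · rw [Real.log_mul hK.ne' (by positivity), Real.log_pow]
    push_cast
    linarith
  · have h2 : (N:ℝ) + 2 ≤ 3 * N := by linarith
    have hE : (Real.exp 0.3) ^ N * Real.exp (-(0.3 * N)) = 1 := by
      rw [← Real.exp_nat_mul, ← Real.exp_add, ← Real.exp_zero]
      congr 1; ring
    have h3 : 4 * C0 * (j0 + N : ℝ) * (2 * CW ^ 24 * (N + 2) ^ 72) ≤ (Real.exp 0.3) ^ N := by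
      refine le_trans ?_ f5
      calc 4 * C0 * (j0 + N : ℝ) * (2 * CW ^ 24 * (N + 2) ^ 72)
          ≤ 4 * C0 * ((j0 + 1) * N) * (2 * CW ^ 24 * (3 * N) ^ 72) := by gcongr
        _ = _ := by ring
    calc 4 * C0 * (j0 + N : ℝ) * Real.exp (-(0.3 * N)) * (2 * CW ^ 24 * (N + 2) ^ 72)
        = (4 * C0 * (j0 + N : ℝ) * (2 * CW ^ 24 * (N + 2) ^ 72)) * Real.exp (-(0.3 * N)) := by
          ring
      _ ≤ (Real.exp 0.3) ^ N * Real.exp (-(0.3 * N)) :=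
          mul_le_mul_of_nonneg_right h3 (Real.exp_pos _).le
      _ = 1 := hE

/-- The parameters are large enough (wider closeness bound). -/
structure BigW (j0 C1 CW N0 j2 : ℕ) : Prop where
  two_le : 2 ≤ N0
  pow_le : (2 * j2) ^ 3 ≤ N0
  cw_le : 1024 * CW + 1 ≤ j2
  theta : ∀ j : ℕ, j2 ≤ j → (j:ℝ) ^ 8 * (2 * (C0 * j) * ((2:ℝ) ^ j)⁻¹) ≤ 1 / 2 * (1 / (j:ℝ) ^ 24)
  g1 : ∀ N : ℕ, N0 ≤ N → 4 * C0 * (j0 + N) * Real.exp (-(0.3 * N)) ≤
    Real.exp (-(83520 * C1 ^ 2 * (N:ℝ) ^ (9 / 10 : ℝ)))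
  g2 : ∀ N : ℕ, N0 ≤ N →
    8 * (1 + Real.log ((2320 * C1 * (27 * CW + 1)) * (N:ℝ) ^ 6)) ≤ (N:ℝ) ^ (1 / 20 : ℝ)
  g3 : ∀ N : ℕ, N0 ≤ N →
    4 * C0 * (j0 + N) * Real.exp (-(0.3 * N)) * (2 * CW ^ 24 * (N + 2) ^ 72) ≤ 1

lemma exists_BigW (j0 C1 CW : ℕ) (hC1 : 1 ≤ C1) (hCW : 1 ≤ CW) :
    ∃ N0 j2, BigW j0 C1 CW N0 j2 := by
  have hCWr : (1:ℝ) ≤ CW := by exact_mod_cast hCW
  have hC1r : (1:ℝ) ≤ C1 := by exact_mod_cast hC1
  obtain ⟨N1, hN12, hN1⟩ := asymW (83520 * C1 ^ 2) (2320 * C1 * (27 * CW + 1))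
    (by positivity) j0 CW
  have ej : ∀ᶠ j : ℕ in Filter.atTop, (4 * C0 : ℝ) * (j:ℝ) ^ 33 ≤ 2 ^ j := ev_poly 33 _ (by norm_num)
  obtain ⟨j1, hj1⟩ := Filter.eventually_atTop.mp ej
  refine ⟨max N1 ((2 * max j1 (1024 * CW + 1)) ^ 3), max j1 (1024 * CW + 1),
    hN12.trans (le_max_left _ _), le_max_right _ _, le_max_right _ _, ?_, ?_, ?_, ?_⟩
  · intro j hj
    exact theta_bound j (le_trans (by omega) ((le_max_right _ _).trans hj))
      (hj1 j ((le_max_left _ _).trans hj))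
  · intro N hN
    exact (hN1 N ((le_max_left _ _).trans hN)).1
  · intro N hN
    exact (hN1 N ((le_max_left _ _).trans hN)).2.1
  · intro N hN
    exact (hN1 N ((le_max_left _ _).trans hN)).2.2

lemma coreW {F : Finset ℕ} {P : Set ℕ} {G : ℕ → Finset ℕ} {s s' k : ℕ → ℕ} {j0 C1 CW : ℕ}
    {θ W : ℕ → ℝ} (S : Sys F P G s s' k j0 C1 CW θ W) {N0 j2 : ℕ} (B : BigW j0 C1 CW N0 j2)
    (x y p q a b N : ℕ) (hp : p.Prime) (hq : q.Prime) (hpP : p ∈ P) (hqP : q ∈ P)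
    (hxy : x < y) (hpa : p ^ a = x) (hqb : q ^ b = y) (ha : 1 ≤ a) (hb : 1 ≤ b)
    (hlogxy : a * Real.log p < b * Real.log q) (hNN0 : N0 ≤ N) (t η : ℝ)
    (ht : t = a * Real.log p) (htN : t < CW * ((N:ℝ) + 2) ^ 3)
    (hη : η = 4 * C0 * (j0 + N) * Real.exp (-(0.3 * N)))
    (hclose : b * Real.log q - a * Real.log p ≤ η) : False := by
  have hN2 : 2 ≤ N := B.two_le.trans hNN0
  have hη0 : 0 < η := by linarith
  have g3 := B.g3 N hNN0
  rw [← hη] at g3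
  have hηsmall : η ≤ 1 / 2 := eta_small η N CW S.hCW hη0 g3
  have hpq : p ≠ q := ne_of_close x y p q a b hp hxy hpa hqb η hηsmall hclose
  clear g3
  have hlyt : b * Real.log q ≤ t + 1 := by linarith
  have hapt : a * Real.log p ≤ t + 1 := by linarith
  have hab := ab_le a b N CW t hN2 htN (a_le a p hp t hapt) (a_le b q hq t hlyt)
  have habs : |b * Real.log q - a * Real.log p| = b * Real.log q - a * Real.log p :=
    abs_of_pos (by linarith)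
  -- level
  obtain ⟨n, hpn, hqn, hnlev⟩ := S.level hpP hqP
  rcases le_or_gt ((n + 1) ^ 5) (N ^ 2) with hcase | hcase
  · -- case (i): linear forms in logarithms
    have hLF := case_one p q a b n N C1 CW hp hq hpq ha hb S.hC1 (S.hlog n p hpn)
      (S.hlog n q hqn) hN2 hcase hab (B.g2 N hNN0)
    have g1 := B.g1 N hNN0
    rw [habs] at hLF
    rw [← hη] at g1
    linarith
  · -- case (ii)
    obtain ⟨m', hm'⟩ := n_pos n N hN2 hcase
    obtain ⟨j, hj⟩ : ∃ j, j = j0 + m' := ⟨_, rfl⟩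
    have hstage := S.hS m'
    rw [← hj] at hstage
    -- N^2 < (2j)^5
    have hN2j : N ^ 2 < (2 * j) ^ 5 := by
      refine lt_of_lt_of_le hcase ?_
      apply Nat.pow_le_pow_left
      have := S.hj0
      omega
    have hcw := B.cw_le
    have hjj2 : j2 ≤ j := j2_le j j2 N hN2j (B.pow_le.trans hNN0) (by omega)
    have hj1' : 1 ≤ j := by omega
    have htj : t + 1 ≤ 2 * (j:ℝ) ^ 9 :=
      t_le_j j N CW t hN2 (hcw.trans hjj2) htN (pow_cmp N j hj1' hN2j)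
    have htN2 : t + 1 ≤ 2 * (CW * ((N:ℝ) + 2) ^ 3) := by
      have hCWr : (1:ℝ) ≤ CW := by exact_mod_cast S.hCW
      have hN0 : (0:ℝ) ≤ N := Nat.cast_nonneg _
      have h1 : (1:ℝ) ≤ CW * ((N:ℝ) + 2) ^ 3 :=
        one_le_mul_of_one_le_of_one_le hCWr (one_le_pow₀ (by linarith))
      linarith
    rw [hm', S.hGs] at hpn hqn
    have g3 := B.g3 N hNN0
    rw [← hη] at g3
    exact case_two hstage (S.two_mem m') hj1' t η N CW htj hη0.le htN2 g3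
      (B.theta j hjj2) p q a b hpq ha hb hapt hlyt
      (by rw [habs]; exact hclose) hpn hqn (hnlev m' hm')

/-- many elements in an interval which is long against the density -/
lemma many {F : Finset ℕ} {P : Set ℕ} {G : ℕ → Finset ℕ} {s s' k : ℕ → ℕ} {j0 C1 CW : ℕ}
    {θ W : ℕ → ℝ} (S : Sys F P G s s' k j0 C1 CW θ W) (N m : ℕ) :
    ∀ x y : ℕ, 0 < x → x < y → (CW:ℝ) * (N + 1) ^ 3 ≤ Real.log x →
      ((m:ℝ) + 1) * (4 * C0 * (j0 + N) / (2:ℝ) ^ N) < Real.log y - Real.log x →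
      m + 1 ≤ Set.ncard {z : ℕ | z ∈ SU P ∧ x < z ∧ z < y} := by
  have hfin : ∀ x y : ℕ, Set.Finite {z : ℕ | z ∈ SU P ∧ x < z ∧ z < y} := fun x y =>
    (Set.finite_Ioo x y).subset (fun z hz => ⟨hz.2.1, hz.2.2⟩)
  have hδ : 0 ≤ 4 * C0 * (j0 + N) / (2:ℝ) ^ N := (S.hθpos N).le.trans (S.hθle N)
  have hne : ∀ x y : ℕ, 0 < x → x < y → (CW:ℝ) * (N + 1) ^ 3 ≤ Real.log x →
      4 * C0 * (j0 + N) / (2:ℝ) ^ N < Real.log y - Real.log x →
      ∃ z, z ∈ SU P ∧ x < z ∧ z < y := by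
    intro x y hx hxy hN h
    by_contra hno
    have := S.close x y N hx hxy hN hno
    linarith
  induction m with
  | zero =>
    intro x y hx hxy hN h
    obtain ⟨z, hz⟩ := hne x y hx hxy hN (by simpa using h)
    have : 0 < Set.ncard {z : ℕ | z ∈ SU P ∧ x < z ∧ z < y} :=
      (Set.ncard_pos (hfin x y)).2 ⟨z, hz⟩
    omega
  | succ m ih =>
    intro x y hx hxy hN h
    push_cast at h
    have hm0 : (0:ℝ) ≤ m := Nat.cast_nonneg m
    have hex := hne x y hx hxy hN (by nlinarith)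
    classical
    obtain ⟨z1, hz1⟩ : ∃ z1, z1 = Nat.find hex := ⟨_, rfl⟩
    obtain ⟨k1, k2, k3⟩ := Nat.find_spec hex
    rw [← hz1] at k1 k2 k3
    have hno : ¬ ∃ z ∈ SU P, x < z ∧ z < z1 := by
      rintro ⟨z, h1, h2, h3⟩
      exact Nat.find_min hex (by rw [← hz1]; exact h3) ⟨h1, h2, h3.trans k3⟩
    have hcl := S.close x z1 N hx k2 hN hno
    have hxr : (0:ℝ) < x := by exact_mod_cast hx
    have hN' : (CW:ℝ) * (N + 1) ^ 3 ≤ Real.log z1 :=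
      hN.trans (Real.log_le_log hxr (by exact_mod_cast k2.le))
    have h2 := ih z1 y (hx.trans k2) k3 hN' (by linarith)
    have hnot : z1 ∉ {z : ℕ | z ∈ SU P ∧ z1 < z ∧ z < y} := fun h => lt_irrefl _ h.2.1
    have h3 : (insert z1 {z : ℕ | z ∈ SU P ∧ z1 < z ∧ z < y}).ncard ≤
        Set.ncard {z : ℕ | z ∈ SU P ∧ x < z ∧ z < y} := by
      refine Set.ncard_le_ncard ?_ (hfin x y)
      intro z hz
      rcases hz with rfl | hz
      · exact ⟨k1, k2, k3⟩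
      · exact ⟨hz.1, k2.trans hz.2.1, hz.2.2⟩
    rw [Set.ncard_insert_of_notMem hnot (hfin z1 y)] at h3
    omega

theorem main (F : Finset ℕ) (hF : ∀ p ∈ F, p.Prime) :
    ∃ P : Set ℕ, (∀ p ∈ P, p.Prime) ∧ P.Infinite ∧ (↑F : Set ℕ) ⊆ P ∧
      ∃ c : ℝ, 0 < c ∧ ∃ X0 : ℕ, ∀ x ∈ SU P, ∀ y ∈ SU P, X0 ≤ x → x < y →
        IsPrimePow x → IsPrimePow y →
        Real.exp (c * (Real.log x) ^ (1 / 3 : ℝ)) ≤
          (Set.ncard {z : ℕ | z ∈ SU P ∧ x < z ∧ z < y} : ℝ) + 1 := by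
  obtain ⟨P, G, s, s', k, j0, C1, CW, θ, W, S⟩ := exists_Sys F hF
  obtain ⟨N0, j2, B⟩ := exists_BigW j0 C1 CW S.hC1 S.hCW
  have hCWr : (1:ℝ) ≤ CW := by exact_mod_cast S.hCW
  refine ⟨P, S.prime, S.infinite, S.subset, 0.19 / CW, by positivity,
    ⌈Real.exp (CW * (N0 + 2) ^ 3)⌉₊, ?_⟩
  intro x hx y hy hX0 hxy hxpp hypp
  by_contra hno
  rw [not_le] at hno
  -- prime power representations
  obtain ⟨p, a, hp, ha, hpa⟩ := hxpp
  obtain ⟨q, b, hq, hb, hqb⟩ := hypp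
  rw [← Nat.prime_iff] at hp hq
  have hpP : p ∈ P := hx.2 p hp (by rw [← hpa]; exact dvd_pow_self p (by omega))
  have hqP : q ∈ P := hy.2 q hq (by rw [← hqb]; exact dvd_pow_self q (by omega))
  have hx0 : 0 < x := Nat.pos_of_ne_zero hx.1
  have hxr : (0:ℝ) < x := by exact_mod_cast hx0
  have hlx : Real.log x = a * Real.log p := by rw [← hpa]; push_cast; rw [Real.log_pow]
  have hly : Real.log y = b * Real.log q := by rw [← hqb]; push_cast; rw [Real.log_pow]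
  have htbig : (CW:ℝ) * (N0 + 2) ^ 3 ≤ Real.log x := by
    rw [Real.le_log_iff_exp_le hxr]
    exact (Nat.le_ceil _).trans (by exact_mod_cast hX0)
  have hlogxy : Real.log x < Real.log y := Real.log_lt_log hxr (by exact_mod_cast hxy)
  obtain ⟨N, hNN0, hNt, htN⟩ := exists_N CW N0 S.hCW (Real.log x) htbig
  have hN2 : 2 ≤ N := B.two_le.trans hNN0
  have hNr : (2:ℝ) ≤ N := by exact_mod_cast hN2
  set m := Set.ncard {z : ℕ | z ∈ SU P ∧ x < z ∧ z < y} with hm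
  have hδ : 0 ≤ 4 * C0 * (j0 + N) / (2:ℝ) ^ N := (S.hθpos N).le.trans (S.hθle N)
  -- few elements force closeness
  have hcl : Real.log y - Real.log x ≤ ((m:ℝ) + 1) * (4 * C0 * (j0 + N) / (2:ℝ) ^ N) := by
    by_contra hcon
    rw [not_le] at hcon
    have := many S N m x y hx0 hxy hNt hcon
    omega
  have hlx0 : 0 ≤ Real.log x := le_trans (by positivity) htbig
  have hroot : (Real.log x) ^ (1 / 3 : ℝ) ≤ CW * (N + 2) := by
    have h1 : Real.log x ≤ (CW * ((N:ℝ) + 2)) ^ 3 := by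
      refine htN.le.trans ?_
      rw [mul_pow]
      exact mul_le_mul_of_nonneg_right (le_self_pow₀ hCWr (by norm_num)) (by positivity)
    calc (Real.log x) ^ (1 / 3 : ℝ) ≤ ((CW * ((N:ℝ) + 2)) ^ 3) ^ (1 / 3 : ℝ) :=
          Real.rpow_le_rpow hlx0 h1 (by norm_num)
      _ = CW * (N + 2) := by
          rw [← Real.rpow_natCast, ← Real.rpow_mul (by positivity)]
          norm_num
  have hexp : Real.exp (0.19 / CW * (Real.log x) ^ (1 / 3 : ℝ)) ≤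
      (2:ℝ) ^ N * Real.exp (-(0.3 * N)) := by
    have h2 : (2:ℝ) ^ N = Real.exp (Real.log 2 * N) := by
      rw [mul_comm, Real.exp_nat_mul, Real.exp_log (by norm_num)]
    rw [h2, ← Real.exp_add]
    apply Real.exp_le_exp.mpr
    have h3 : 0.19 / CW * (Real.log x) ^ (1 / 3 : ℝ) ≤ 0.19 / CW * (CW * (N + 2)) :=
      mul_le_mul_of_nonneg_left hroot (by positivity)
    have h4 : 0.19 / CW * (CW * ((N:ℝ) + 2)) = 0.19 * (N + 2) := by field_simp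
    have h5 := Real.log_two_gt_d9
    nlinarith
  have hclose : Real.log y - Real.log x ≤ 4 * C0 * (j0 + N) * Real.exp (-(0.3 * N)) := by
    refine hcl.trans ?_
    calc ((m:ℝ) + 1) * (4 * C0 * (j0 + N) / (2:ℝ) ^ N)
        ≤ ((2:ℝ) ^ N * Real.exp (-(0.3 * N))) * (4 * C0 * (j0 + N) / (2:ℝ) ^ N) :=
          mul_le_mul_of_nonneg_right (hno.le.trans hexp) hδ
      _ = _ := by field_simp
  rw [hly, hlx] at hclose
  rw [hlx] at htN
  rw [hlx, hly] at hlogxy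
  exact coreW S B x y p q a b N hp hq hpP hqP hxy hpa hqb ha hb hlogxy hNN0 _ _ rfl htN rfl hclose

end Pool.Agent.Y594.SUI
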